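import Pool.Agent.Lib_helper97.SN.Grp

set_option autoImplicit false

namespace Pool.Agent.Lib_helper64.NH

open Pool.Agent.Results.MP_c77999_an.StrictMono

/-- first sequence: `-1` on the set `{0, 5, 8, 13, 15, 19, 22}` of residues mod `23` -/
def a23 (x : ZMod 23) : ℤ := if x ∈ ([0, 5, 8, 13, 15, 19, 22] : List (ZMod 23)) then -1 else 1
/-- second sequence: `-1` on `{0, 1, 2, 3, 6, 7, 9, 11, 13, 14}` -/
def b23 (x : ZMod 23) : ℤ :=
  if x ∈ ([0, 1, 2, 3, 6, 7, 9, 11, 13, 14] : List (ZMod 23)) then -1 else 1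

theorem a23_pm (x : ZMod 23) : a23 x = 1 ∨ a23 x = -1 := by
  unfold a23; split_ifs <;> simp

theorem b23_pm (x : ZMod 23) : b23 x = 1 ∨ b23 x = -1 := by
  unfold b23; split_ifs <;> simp

theorem pair23 : ∀ g : ZMod 23, g ≠ 0 →
    ∑ x : ZMod 23, (a23 x * a23 (x + g) + b23 x * b23 (x + g)) = 2 := by
  decide +kernel

theorem order_46 : √(45 : ℝ) < r 46 := by
  have h := Pool.Agent.Lib_helper97.SN.ew_group (G := ZMod 23) 23 (by simp [ZMod.card])
    (by norm_num) (fun x => (a23 x : ℝ)) (fun x => (b23 x : ℝ)) ?_ ?_ ?_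
  · norm_num at h
    exact h
  · intro g
    rcases a23_pm g with h | h
    · left; simp only [h]; norm_num
    · right; simp only [h]; norm_num
  · intro g
    rcases b23_pm g with h | h
    · left; simp only [h]; norm_num
    · right; simp only [h]; norm_num
  · intro g hg
    have := pair23 g hg
    have h2 : ((∑ x : ZMod 23, (a23 x * a23 (x + g) + b23 x * b23 (x + g)) : ℤ) : ℝ) = 2 := by
      rw [this]; norm_num
    rw [← h2]
    push_cast
    rfl

end Pool.Agent.Lib_helper64.NH
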